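import Mathlib

set_option autoImplicit false
set_option linter.unusedSectionVars false

namespace Pool.Agent.Results.MP_7bb607_co.Cex

open Finset Module ExteriorAlgebra

/-- exterior algebra of the space of homogeneous coordinates of `ℝ^d` -/
abbrev A (d : ℕ) := ExteriorAlgebra ℝ (Fin (d + 1) → ℝ)

/-- homogeneous coordinates `(x, 1)` -/
noncomputable def hv {d : ℕ} (x : Fin d → ℝ) : A d := ι ℝ (Fin.snoc x 1 : Fin (d + 1) → ℝ)

variable {V : Type} [Fintype V] [LinearOrder V] {d : ℕ} {B : Type} [Ring B] [Algebra ℝ B]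

/-- the extensor of a face: product of the vertex vectors `y v` -/
noncomputable def bar (y : V → B) (σ : Finset V) : B := ((σ.sort (· ≤ ·)).map y).prod

open Classical in
/-- representatives of chains on the faces with `k` vertices (degree `k - 1`); `L j` is the
degree `j` part of `B` -/
noncomputable def Ch (L : ℕ → Submodule ℝ B) (r : ℕ) (K : Set (Finset V)) (k : ℕ) :
    Submodule ℝ (Finset V → B) :=
  Submodule.pi Set.univ fun σ => if σ ∈ K ∧ σ.card = k ∧ k ≤ r then L (r - k) else ⊥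

/-- representatives of zero: `c σ ∧ bar σ = 0` on every face -/
noncomputable def Nul (y : V → B) : Submodule ℝ (Finset V → B) :=
  Submodule.pi Set.univ fun σ => LinearMap.ker (LinearMap.mulRight ℝ (bar y σ))

/-- the boundary map -/
noncomputable def bd (y : V → B) : (Finset V → B) →ₗ[ℝ] (Finset V → B) :=
  LinearMap.pi fun θ => ∑ x ∈ θᶜ, LinearMap.mulRight ℝ (y x) ∘ₗ LinearMap.proj (insert x θ)

/-- representatives of cycles -/
noncomputable def Cyc (L : ℕ → Submodule ℝ B) (y : V → B) (r : ℕ) (K : Set (Finset V)) (k : ℕ) :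
    Submodule ℝ (Finset V → B) := Ch L r K k ⊓ (Nul y).comap (bd y)

/-- representatives of boundaries -/
noncomputable def Bdy (L : ℕ → Submodule ℝ B) (y : V → B) (r : ℕ) (K : Set (Finset V)) (k : ℕ) :
    Submodule ℝ (Cyc L y r K k) :=
  ((Ch L r K (k + 1)).map (bd y) ⊔ Nul y).submoduleOf (Cyc L y r K k)

/-- dimension of the homology in degree `k - 1` -/
noncomputable def hom (L : ℕ → Submodule ℝ B) (y : V → B) (r : ℕ) (K : Set (Finset V)) (k : ℕ) :
    ℕ := finrank ℝ (Cyc L y r K k ⧸ Bdy L y r K k)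

/-- exterior powers -/
noncomputable def ex (d j : ℕ) : Submodule ℝ (A d) := ⋀[ℝ]^j (Fin (d + 1) → ℝ)

/-- Betti number of the skeletal `r`-rigidity complex in degree `k - 1` -/
noncomputable def betti (r : ℕ) (p : V → Fin d → ℝ) (K : Set (Finset V)) (k : ℕ) : ℕ :=
  hom (ex d) (fun v => hv (p v)) r K k

lemma bd_apply (y : V → B) (c : Finset V → B) (θ : Finset V) :
    bd y c θ = ∑ x ∈ θᶜ, c (insert x θ) * y x := by
  simp [bd, LinearMap.sum_apply]

lemma mem_Nul {y : V → B} {c : Finset V → B} : c ∈ Nul y ↔ ∀ σ, c σ * bar y σ = 0 := by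
  simp [Nul, Submodule.mem_pi]

lemma mem_Ch {L : ℕ → Submodule ℝ B} {r k : ℕ} {K : Set (Finset V)} {c : Finset V → B}
    (h : k ≤ r) : c ∈ Ch L r K k ↔ ∀ σ, c σ ∈ L (r - k) ∧ (¬ (σ ∈ K ∧ σ.card = k) → c σ = 0) := by
  simp only [Ch, Submodule.mem_pi, Set.mem_univ, true_imp_iff, h, and_true]
  refine forall_congr' fun σ => ?_
  split_ifs with h1
  · simp [h1]
  · rw [Submodule.mem_bot]
    exact ⟨fun h => ⟨h ▸ Submodule.zero_mem _, fun _ => h⟩,
      fun e => e.2 fun e => h1 ⟨e.1, e.2, h⟩⟩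

lemma sw (x y : Fin d → ℝ) : hv y * hv x = -(hv x * hv y) :=
  eq_neg_of_add_eq_zero_left (ι_add_mul_swap _ _)

lemma sq0 (x : Fin d → ℝ) : hv x * hv x = 0 := ι_sq_zero _

lemma kill (p : V → Fin d → ℝ) {σ : Finset V} {x : V} (h : x ∈ σ) : 
    hv (p x) * bar (fun v => hv (p v)) σ = 0 := by
  unfold bar
  rw [← mem_sort (· ≤ ·)] at h
  generalize σ.sort (· ≤ ·) = l at h
  induction l with
  | nil => simp at h
  | cons y l ih =>
    rw [List.map_cons, List.prod_cons, ← mul_assoc]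
    rcases List.mem_cons.1 h with rfl | h
    · rw [sq0, zero_mul]
    · rw [sw, neg_mul, mul_assoc, ih h]; simp

lemma exL {n : ℕ} (g : (Fin (d + 1) → ℝ) →ₗ[ℝ] (Fin n → ℝ)) : ∃ L : A d →ₗ[ℝ] ℝ,
    ∀ v, L (ιMulti ℝ n v) = Matrix.det (Matrix.of fun i => g (v i)) :=
  ⟨liftAlternating (Function.update 0 n (Matrix.detRowAlternating.compLinearMap g)), fun v => by
    rw [liftAlternating_apply_ιMulti, Function.update_self]; rfl⟩

/-- the cone with apex `0` over the four-cycle `1 2 3 4` -/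
def K : Set (Finset (Fin 5)) := {σ | ¬ {1, 3} ⊆ σ ∧ ¬ {2, 4} ⊆ σ}

instance : DecidablePred (· ∈ K) := fun _ => instDecidableAnd

/-- five affinely independent points of `ℝ^4` -/
def P : Fin 5 → Fin 4 → ℝ :=
  ![![0, 0, 0, 0], ![1, 0, 0, 0], ![0, 1, 0, 0], ![0, 0, 1, 0], ![1, 1, 1, 1]]

def Φ : (Fin 5 → ℝ) →ₗ[ℝ] (Fin 5 → ℝ) where
  toFun w := ![w 4 - w 0 - w 1 - w 2 + 2 * w 3, w 0 - w 3, w 1 - w 3, w 2 - w 3, w 3]
  map_add' a b := by ext i; fin_cases i <;> simp <;> ring
  map_smul' a b := by ext i; fin_cases i <;> simp <;> ring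

lemma snP : ∀ v, (Fin.snoc (P v) 1 : Fin 5 → ℝ) = (![![0, 0, 0, 0, 1], ![1, 0, 0, 0, 1],
    ![0, 1, 0, 0, 1], ![0, 0, 1, 0, 1], ![1, 1, 1, 1, 1]] : Fin 5 → Fin 5 → ℝ) v := by
  intro v; fin_cases v <;> ext i <;> fin_cases i <;> rfl

lemma ΦP (v x : Fin 5) : Φ (Fin.snoc (P v) 1) x = if v = x then 1 else 0 := by
  rw [snP]; fin_cases v <;> fin_cases x <;> simp [Φ] <;> norm_num

lemma expand (w : Fin 5 → ℝ) : ι ℝ w = ∑ x, Φ w x • hv (P x) := by
  simp only [hv, ← map_smul, ← map_sum, snP]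
  congr 1
  ext i; fin_cases i <;> simp [Φ, Fin.sum_univ_five] <;> ring

lemma high : betti 3 P K 2 = 0 := by
  have : Bdy (ex 4) (fun v => hv (P v)) 3 K 2 = ⊤ := by
    rw [eq_top_iff]
    rintro ⟨c, hc', hz⟩ -
    have hc := (mem_Ch (by norm_num)).1 hc'
    have h1 : ∀ σ, ∃ w, c σ = ι ℝ w ∧ (¬ (σ ∈ K ∧ σ.card = 2) → w = 0) := fun σ => by
      by_cases h : σ ∈ K ∧ σ.card = 2
      · obtain ⟨w, hw⟩ : c σ ∈ LinearMap.range (ι ℝ) := by simpa [ex] using (hc σ).1
        exact ⟨w, hw.symm, fun e => absurd h e⟩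
      · exact ⟨0, by simp [(hc σ).2 h], fun _ => rfl⟩
    choose w hw hw0 using h1
    have sym : ∀ x u v : Fin 5, x ≠ u → x ≠ v → u ≠ v → Φ (w {u, v}) x = Φ (w {x, v}) u := by
      intro x u v h1 h2 h3
      obtain ⟨L, hL⟩ := exL (d := 4) (LinearMap.funLeft ℝ ℝ ![x, u, v] ∘ₗ Φ)
      have h := congrArg L (mem_Nul.1 hz {v})
      rw [bd_apply, sum_mul, map_sum, map_zero] at h
      have e : ∀ z ∈ ({v} : Finset (Fin 5))ᶜ, L (c {z, v} * hv (P z) * bar (fun v => hv (P v)) {v}) =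
          (if u = z then Φ (w {z, v}) x else 0) - if x = z then Φ (w {z, v}) u else 0 := by
        intro z hz
        have := hL ![w {z, v}, Fin.snoc (P z) 1, Fin.snoc (P v) 1]
        rw [Matrix.det_fin_three] at this
        simp [ΦP, LinearMap.funLeft_apply, h2.symm, h3.symm] at this
        simp only [bar, sort_singleton, List.map_singleton, List.prod_singleton, hw, hv, mul_assoc,
          this, eq_comm]
      rw [sum_congr rfl e, sum_sub_distrib, sum_ite_eq, sum_ite_eq] at h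
      simpa [h2, h3, sub_eq_zero] using h
    let s : Finset (Fin 5) → ℝ := fun τ => (1 / 3) * ∑ z ∈ τ, Φ (w (τ.erase z)) z
    have tri : ∀ σ : Finset (Fin 5), σ.card = 2 → ∀ x ∉ σ, s (insert x σ) = Φ (w σ) x := by
      intro σ h x hx
      obtain ⟨u, v, huv, rfl⟩ := card_eq_two.1 h
      simp only [mem_insert, mem_singleton, not_or] at hx
      have e1 : ({x, u, v} : Finset (Fin 5)).erase u = {x, v} := by ext; simp; grind
      have e2 : ({x, u, v} : Finset (Fin 5)).erase v = {x, u} := by ext; simp; grind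
      simp only [s]
      rw [sum_insert (by simp [hx]), sum_pair huv, erase_insert (by simp [hx]), e1, e2,
        ← sym x u v hx.1 hx.2 huv, ← sym x v u hx.2 hx.1 huv.symm, pair_comm v u]
      ring
    refine Submodule.mem_sup.2 ⟨_, ⟨fun τ => if τ.card = 3 then algebraMap ℝ _ (s τ) else 0, ?_,
      rfl⟩, _, ?_, add_sub_cancel _ _⟩
    · rw [SetLike.mem_coe, mem_Ch le_rfl]
      intro τ
      split_ifs with h
      · refine ⟨by simp [ex], fun h1 => ?_⟩
        have fl : ∀ τ : Finset (Fin 5), τ.card = 3 → τ ∉ K → ∃ z ∈ τ, τ.erase z ∉ K := by decide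
        obtain ⟨z, hz, h2⟩ := fl τ h (by simpa [h] using h1)
        have := tri (τ.erase z) (by simp [hz, h]) z (by simp)
        rw [insert_erase hz, hw0 _ (by simp [h2])] at this
        simp [this]
      · simp
    · rw [mem_Nul]
      intro σ
      simp only [Pi.sub_apply, bd_apply, Submodule.subtype_apply]
      by_cases h : σ.card = 2
      · have e : ∀ x ∈ σᶜ, (if (insert x σ).card = 3 then algebraMap ℝ (A 4) (s (insert x σ))
            else 0) * hv (P x) = Φ (w σ) x • hv (P x) := fun x hx => by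
          rw [if_pos (by rw [card_insert_of_notMem (mem_compl.1 hx), h]),
            tri σ h x (mem_compl.1 hx), Algebra.smul_def]
        rw [sum_congr rfl e, hw, expand, ← sum_add_sum_compl σ, add_sub_cancel_right, sum_mul]
        exact sum_eq_zero fun x hx => by rw [smul_mul_assoc, kill P hx, smul_zero]
      · rw [(hc σ).2 (by simp [h]), sum_eq_zero fun x hx => ?_]
        · simp
        · rw [if_neg (by rw [card_insert_of_notMem (mem_compl.1 hx)]; omega), zero_mul]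
  rw [betti, hom, this]
  exact finrank_zero_of_subsingleton

/-- the vertical projection of `P` -/
def Q : Fin 5 → Fin 3 → ℝ := fun v => Fin.init (P v)

lemma snQ : ∀ v, (Fin.snoc (Q v) 1 : Fin 4 → ℝ) = (![![0, 0, 0, 1], ![1, 0, 0, 1],
    ![0, 1, 0, 1], ![0, 0, 1, 1], ![1, 1, 1, 1]] : Fin 5 → Fin 4 → ℝ) v := by
  intro v; fin_cases v <;> ext i <;> fin_cases i <;> rfl

lemma Q4 : hv (Q 4) = hv (Q 1) + hv (Q 2) + hv (Q 3) - (2 : ℝ) • hv (Q 0) := by
  simp only [hv, ← map_smul, ← map_add, ← map_sub, snQ]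
  congr 1
  ext i; fin_cases i <;> simp <;> norm_num

noncomputable def cy (σ : Finset (Fin 5)) : A 3 :=
  if σ = {0, 1} then (2 : ℝ) • hv (Q 2) else if σ = {0, 3} then (-2 : ℝ) • hv (Q 1) else
  if σ = {0, 4} then (2 : ℝ) • hv (Q 1) else if σ = {1, 2} then hv (Q 3) else
  if σ = {2, 3} then hv (Q 1) else if σ = {3, 4} then -hv (Q 1) else
  if σ = {1, 4} then hv (Q 2) else 0

lemma cy_mem : cy ∈ Ch (ex 3) 3 K 2 := by
  rw [mem_Ch (by norm_num)]
  intro σ
  have h : ∀ v, hv (Q v) ∈ ex 3 (3 - 2) := fun v => by simp [hv, ex]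
  unfold cy
  refine ⟨?_, fun h1 => ?_⟩
  · split_ifs <;> simp only [h, Submodule.smul_mem, neg_mem_iff, zero_mem]
  · iterate 7 rw [if_neg (by rintro rfl; exact h1 (by decide))]

lemma cy_cyc : bd (fun v => hv (Q v)) cy ∈ Nul (fun v => hv (Q v)) := by
  rw [mem_Nul]
  intro σ
  rw [bd_apply]
  by_cases h : σ.card = 1
  · obtain ⟨v, rfl⟩ := card_eq_one.1 h
    have s1 : ∀ a b : Fin 5, ∀ z, a < b → hv (Q b) * (hv (Q a) * z) = -(hv (Q a) * (hv (Q b) * z)) :=
      fun a b z _ => by rw [← mul_assoc, sw, neg_mul, mul_assoc]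
    have s2 : ∀ a b : Fin 5, a < b → hv (Q b) * hv (Q a) = -(hv (Q a) * hv (Q b)) :=
      fun a b _ => sw _ _
    have s3 : ∀ a : Fin 5, ∀ z, hv (Q a) * (hv (Q a) * z) = 0 :=
      fun a z => by rw [← mul_assoc, sq0, zero_mul]
    rw [compl_eq_univ_sdiff, sdiff_singleton_eq_erase, ← filter_ne', sum_filter, Fin.sum_univ_five]
    simp only [bar, sort_singleton, List.map_singleton, List.prod_singleton]
    fin_cases v <;> simp +decide only [cy, Fin.reduceFinMk, if_true, if_false] <;>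
      simp +decide [Q4, mul_add, add_mul, mul_sub, sub_mul, mul_assoc, s1, s2, s3, sq0] <;> module
  · rw [sum_eq_zero fun x hx => ?_, zero_mul]
    rw [((mem_Ch (by norm_num)).1 cy_mem _).2 (by
      rw [card_insert_of_notMem (mem_compl.1 hx)]; omega), zero_mul]

lemma low : 0 < betti 3 Q K 2 := by
  have : Module.Finite ℝ (Ch (ex 3) 3 K 2) := Module.Finite.iff_fg.2 (Submodule.fg_pi fun σ => by
    split_ifs
    · exact Module.Finite.iff_fg.1 exteriorPower.instFinite
    · exact Submodule.fg_bot)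
  have : Module.Finite ℝ (Cyc (ex 3) (fun v => hv (Q v)) 3 K 2) :=
    Submodule.finiteDimensional_of_le inf_le_left
  rw [betti, hom, finrank_pos_iff, Submodule.Quotient.nontrivial_iff]
  intro e
  obtain ⟨_, ⟨b, hb, rfl⟩, n, hn, h⟩ := Submodule.mem_sup.1
    (show (⟨cy, cy_mem, cy_cyc⟩ : Cyc (ex 3) (fun v => hv (Q v)) 3 K 2) ∈ Bdy _ _ 3 K 2 from
      e ▸ Submodule.mem_top)
  have hb' := (mem_Ch le_rfl).1 hb
  have h1 := congrArg (fun c : Finset (Fin 5) → A 3 => 
    c {1, 2} * bar (fun v => hv (Q v)) {1, 2} * hv (Q 0)) h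
  have e1 : bar (fun v => hv (Q v)) {1, 2} = hv (Q 1) * hv (Q 2) := by
    have : ({1, 2} : Finset (Fin 5)).sort (· ≤ ·) = [1, 2] := by
      rw [sort_insert] <;> simp
    simp [bar, this]
  have e2 : ({1, 2} : Finset (Fin 5))ᶜ = {0, 3, 4} := by decide
  obtain ⟨t, ht⟩ : ∃ t : ℝ, algebraMap ℝ _ t = b {0, 1, 2} := by
    simpa [ex] using (hb' {0, 1, 2}).1
  simp only [Pi.add_apply, add_mul, mem_Nul.1 hn, bd_apply, e2, Submodule.subtype_apply] at h1
  rw [sum_insert (by decide), sum_pair (by decide), (hb' {3, 1, 2}).2 (by decide),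
    (hb' {4, 1, 2}).2 (by decide), ← ht, e1] at h1
  obtain ⟨L, hL⟩ := exL (d := 3) LinearMap.id
  have h2 := hL ![Fin.snoc (Q 0) 1, Fin.snoc (Q 1) 1, Fin.snoc (Q 2) 1, Fin.snoc (Q 0) 1]
  have h3 := hL ![Fin.snoc (Q 3) 1, Fin.snoc (Q 1) 1, Fin.snoc (Q 2) 1, Fin.snoc (Q 0) 1]
  have h4 := congrArg L h1
  simp +decide [cy, hv, mul_assoc, ← Algebra.smul_def] at h4
  simp only [ιMulti_succ_apply, ιMulti_zero_apply] at h2 h3
  simp at h2 h3
  rw [h2, h3] at h4
  simp [Matrix.det_succ_row_zero, Fin.sum_univ_succ, snQ, Fin.succAbove] at h4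

lemma aiQ (v : Fin 5) {σ : Finset (Fin 5)} (h : v ∉ σ) :
    AffineIndependent ℝ (fun u : σ => Q u) := by
  have h1 : AffineIndependent ℝ (fun i => Q (v.succAbove i)) := by
    rw [affineIndependent_iff_of_fintype]
    intro w hw h
    rw [weightedVSub_eq_linear_combination _ hw] at h
    have h0 := congrFun h 0
    have h1 := congrFun h 1
    have h2 := congrFun h 2
    rw [Fin.sum_univ_four] at hw
    intro i
    fin_cases v <;> simp [Fin.sum_univ_four, Q, P, Fin.init, Fin.succAbove] at h0 h1 h2 <;>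
      fin_cases i <;> simp <;> linarith
  have h2 := (affineIndependent_equiv (finSuccAboveEquiv v).symm).2 h1
  have h3 := h2.comp_embedding ⟨fun u : σ => ⟨u, fun e => h (e ▸ u.2)⟩, fun a b e => by
    simpa using e⟩
  convert h3 using 2 with u
  simp only [Function.comp, Function.Embedding.coeFn_mk]
  exact congrArg (fun x : {x // x ≠ v} => Q x) ((finSuccAboveEquiv v).apply_symm_apply
    ⟨u, fun e => h (e ▸ u.2)⟩).symm

theorem result : ∃ (K : Set (Finset (Fin 5))) (p : Fin 5 → Fin 4 → ℝ),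
    (∅ ∈ K ∧ ∀ σ ∈ K, ∀ θ ⊆ σ, θ ∈ K) ∧ (∀ σ ∈ K, ∃ τ ∈ K, σ ⊆ τ ∧ τ.card = 3) ∧
    AffineIndependent ℝ p ∧
    (∀ σ : Finset (Fin 5), σ.card ≤ 4 → AffineIndependent ℝ fun u : σ => Fin.init (p u)) ∧
    betti 3 p K 2 < betti 3 (fun v => Fin.init (p v)) K 2 := by
  refine ⟨K, P, ⟨by decide, by decide⟩, by decide, ?_, fun σ h => ?_, high ▸ low⟩
  · rw [affineIndependent_iff_of_fintype]
    intro w hw h
    rw [weightedVSub_eq_linear_combination _ hw] at h
    have h0 := congrFun h 0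
    have h1 := congrFun h 1
    have h2 := congrFun h 2
    have h3 := congrFun h 3
    rw [Fin.sum_univ_five] at hw
    simp [Fin.sum_univ_five, P] at h0 h1 h2 h3
    intro i
    fin_cases i <;> simp <;> linarith
  · obtain ⟨v, -, hv⟩ := exists_mem_notMem_of_card_lt_card (s := σ) (t := univ) (by simp; omega)
    exact aiQ v hv

end Pool.Agent.Results.MP_7bb607_co.Cex
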